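import Mathlib

open Filter Topology

namespace Pool.Agent.H.MP_c0f49b_an

variable {𝕜 : Type*} [RCLike 𝕜]

abbrev E (𝕜 : Type*) [RCLike 𝕜] := Fin 2 → ZeroAtInftyContinuousMap ℕ 𝕜

lemma cocp : cocompact ℕ = atTop := by rw [cocompact_eq_cofinite, Nat.cofinite_eq_atTop]

lemma tends (x : E 𝕜) (i : Fin 2) : Tendsto (x i) atTop (𝓝 0) := by
  have := (x i).zero_at_infty'
  rwa [cocp] at this

lemma apply_le {x y : E 𝕜} (i : Fin 2) (n : ℕ) : ‖y i n - x i n‖ ≤ dist y x := by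
  have h1 := dist_le_pi_dist y x i
  have h2 := BoundedContinuousFunction.dist_coe_le_dist (f := (y i).toBCF) (g := (x i).toBCF) n
  rw [ZeroAtInftyContinuousMap.dist_toBCF_eq_dist, dist_eq_norm] at h2
  exact h2.trans h1

lemma dist_le {x y : E 𝕜} {r : ℝ} (hr : 0 ≤ r) (h : ∀ i n, ‖y i n - x i n‖ ≤ r) : dist y x ≤ r := by
  refine (dist_pi_le_iff hr).2 fun i => ?_
  rw [← ZeroAtInftyContinuousMap.dist_toBCF_eq_dist]
  refine (BoundedContinuousFunction.dist_le hr).2 fun n => ?_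
  rw [dist_eq_norm]
  exact h i n

def U (K : Set (Fin 2 → ℝ)) (u : Fin 2 → ℕ → 𝕜) (η : ℝ) : Set (E 𝕜) :=
  {x | ∃ M : ℕ, ∃ η' < η, ∀ l ∈ K, ∃ k ≤ M, ∀ i n,
    ‖((Real.exp ((k : ℝ) * l i) : ℝ) : 𝕜) * x i (n + k) - u i n‖ ≤ η'}

lemma U_open {K : Set (Fin 2 → ℝ)} {Λ : ℝ} (hΛ : 0 ≤ Λ) (hK : ∀ l ∈ K, ∀ i, l i ≤ Λ)
    (u : Fin 2 → ℕ → 𝕜) (η : ℝ) : IsOpen (U K u η) := by
  rw [Metric.isOpen_iff]
  rintro x ⟨M, η', hη, hx⟩
  have hp : 0 < Real.exp (M * Λ) := Real.exp_pos _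
  refine ⟨(η - η') / (2 * Real.exp (M * Λ)), div_pos (by linarith) (by positivity),
    fun y hy => ⟨M, (η + η') / 2, by linarith, fun l hl => ?_⟩⟩
  obtain ⟨k, hk, h⟩ := hx l hl
  refine ⟨k, hk, fun i n => ?_⟩
  have h1 := apply_le (x := x) (y := y) i (n + k)
  rw [Metric.mem_ball, lt_div_iff₀ (by positivity)] at hy
  have h2 : Real.exp (k * l i) ≤ Real.exp (M * Λ) := by
    refine Real.exp_le_exp.2 ?_
    have : (k : ℝ) ≤ M := by exact_mod_cast hk
    have h0 : (0 : ℝ) ≤ k := by positivity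
    nlinarith [hK l hl i]
  have h3 : ((Real.exp ((k : ℝ) * l i) : ℝ) : 𝕜) * y i (n + k) - u i n =
      (((Real.exp ((k : ℝ) * l i) : ℝ) : 𝕜) * x i (n + k) - u i n) +
        ((Real.exp ((k : ℝ) * l i) : ℝ) : 𝕜) * (y i (n + k) - x i (n + k)) := by ring
  rw [h3]
  refine (norm_add_le _ _).trans ?_
  rw [norm_mul, RCLike.norm_ofReal, abs_of_pos (Real.exp_pos _)]
  have h4 : Real.exp (k * l i) * ‖y i (n + k) - x i (n + k)‖ ≤ Real.exp (M * Λ) * dist y x :=
    mul_le_mul h2 h1 (norm_nonneg _) hp.le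
  linarith [h i n]

lemma exp_small {A δ y : ℝ} (hA : 0 ≤ A) (hδ : 0 < δ) (hy : y ≤ -(A / δ)) :
    Real.exp y * A ≤ δ := by
  have h1 := Real.add_one_le_exp (-y)
  have h2 : Real.exp y * Real.exp (-y) = 1 := by rw [← Real.exp_add]; simp
  have h3 : A = A / δ * δ := by field_simp
  have h4 : A / δ ≤ Real.exp (-y) := by linarith
  have h5 := Real.exp_pos y
  calc Real.exp y * A = Real.exp y * (A / δ) * δ := by rw [mul_assoc, ← h3]
    _ ≤ Real.exp y * Real.exp (-y) * δ :=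
        mul_le_mul_of_nonneg_right (mul_le_mul_of_nonneg_left h4 h5.le) hδ.le
    _ = δ := by rw [h2, one_mul]

def Tour (K : Set (Fin 2 → ℝ)) (a : ℝ) : Prop := ∀ L τ : ℝ, 0 < L → 0 < τ → ∀ T0 : ℕ,
  ∃ (M : ℕ) (S : Set ℕ) (W : ℕ → Fin 2 → ℝ), (∀ r ∈ S, T0 ≤ r ∧ r ≤ M) ∧
    (∀ r ∈ S, ∀ i, a * r ≤ W r i) ∧ (∀ r ∈ S, ∀ r' ∈ S, r < r' → ∀ i, W r i + L ≤ W r' i) ∧
    ∀ l ∈ K, ∃ r ∈ S, ∀ i, |r * l i - W r i| ≤ τ

lemma U_dense {a : ℝ} (ha : 0 < a) {K : Set (Fin 2 → ℝ)} (hK : Tour K a)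
    (u : Fin 2 → ℕ → 𝕜) (N : ℕ) (hN : 0 < N)
    (hu : ∀ i n, N ≤ n → u i n = 0) {η : ℝ} (hη : 0 < η) : Dense (U K u η) := by
  classical
  rw [Metric.dense_iff]
  intro x0 ρ hρ
  obtain ⟨A, hA0, hA⟩ : ∃ A : ℝ, 0 ≤ A ∧ ∀ i n, ‖u i n‖ ≤ A := by
    refine ⟨∑ i, ∑ n ∈ Finset.range N, ‖u i n‖, by positivity, fun i n => ?_⟩
    rcases Nat.lt_or_ge n N with hn | hn
    · refine le_trans ?_ (Finset.single_le_sum
        (f := fun i => ∑ n ∈ Finset.range N, ‖u i n‖) (fun _ _ => by positivity) (Finset.mem_univ i))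
      exact Finset.single_le_sum (f := fun n => ‖u i n‖) (fun _ _ => norm_nonneg _)
        (Finset.mem_range.2 hn)
    · rw [hu i n hn, norm_zero]; positivity
  have hNr : (1 : ℝ) ≤ N := by exact_mod_cast hN
  set τ : ℝ := min 1 (η / (4 * (A + 1))) with hτ
  have hτ0 : 0 < τ := by positivity
  have hτ1 : τ ≤ 1 := min_le_left _ _
  have hτ2 : τ * (4 * (A + 1)) ≤ η := by
    rw [← le_div_iff₀ (by positivity)]; exact min_le_right _ _
  set L : ℝ := 1 + A / (η / 2) with hL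
  have hL0 : 0 < L := by positivity
  obtain ⟨T0, hT0⟩ : ∃ T0 : ℕ, (∀ i j, T0 ≤ j → ‖x0 i j‖ ≤ ρ / 3) ∧ A / (ρ / 3) ≤ a * T0 := by
    have h1 : ∀ i, ∀ᶠ j in atTop, ‖x0 i j‖ ≤ ρ / 3 := fun i =>
      (tends x0 i).norm.eventually_le_const (by simp; linarith)
    obtain ⟨T1, hT1⟩ := eventually_atTop.1 (eventually_all.2 h1)
    obtain ⟨T2, hT2⟩ := exists_nat_ge (A / (ρ / 3) / a)
    refine ⟨max T1 T2, fun i j hj => hT1 j (le_trans (le_max_left _ _) hj) i, ?_⟩
    rw [div_le_iff₀ ha] at hT2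
    have : (T2 : ℝ) ≤ (max T1 T2 : ℕ) := by exact_mod_cast le_max_right _ _
    nlinarith
  obtain ⟨M, S, W, hSM, s2, s3, s4⟩ := hK (L / N) (τ / N) (by positivity) (by positivity) T0
  let z : Fin 2 → ℕ → 𝕜 := fun i j => if j < N * T0 then x0 i j else
    if j / N ∈ S then ((Real.exp (-(N * W (j / N) i)) : ℝ) : 𝕜) * u i (j % N) else 0
  have hz0 : ∀ i, Tendsto (z i) (cocompact ℕ) (𝓝 0) := by
    intro i
    rw [cocp]
    refine tendsto_const_nhds.congr' ?_
    filter_upwards [eventually_ge_atTop (N * T0), eventually_ge_atTop (N * (M + 1))] with j h1 h2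
    have h3 : j / N ∉ S := fun hh => by
      have := (hSM _ hh).2
      have h4 : M + 1 ≤ j / N := (Nat.le_div_iff_mul_le hN).2 (by rw [mul_comm]; exact h2)
      omega
    simp only [z, if_neg (not_lt.2 h1), if_neg h3]
  let x : E 𝕜 := fun i => ⟨⟨z i, continuous_of_discreteTopology⟩, hz0 i⟩
  have hx : ∀ i j, x i j = z i j := fun _ _ => rfl
  refine ⟨x, ?_, N * M, η / 2, by linarith, fun l hl => ?_⟩
  · rw [Metric.mem_ball]
    refine lt_of_le_of_lt (dist_le (r := 2 * (ρ / 3)) (by positivity) fun i j => ?_) (by linarith)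
    rw [hx]
    by_cases h1 : j < N * T0
    · simp only [z, if_pos h1, sub_self, norm_zero]; positivity
    · have h2 : T0 ≤ j := le_trans (Nat.le_mul_of_pos_left _ hN) (not_lt.1 h1)
      have h3 := hT0.1 i j h2
      refine (norm_sub_le _ _).trans ?_
      have : ‖z i j‖ ≤ ρ / 3 := by
        simp only [z, if_neg h1]
        split_ifs with h4
        · rw [norm_mul, RCLike.norm_ofReal, abs_of_pos (Real.exp_pos _)]
          refine (mul_le_mul_of_nonneg_left (hA _ _) (Real.exp_pos _).le).trans ?_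
          refine exp_small hA0 (by positivity) ?_
          have e1 := s2 _ h4 i
          have e2 : (T0 : ℝ) ≤ ((j / N : ℕ) : ℝ) := by exact_mod_cast (hSM _ h4).1
          have e3 : a * T0 ≤ a * ((j / N : ℕ) : ℝ) := mul_le_mul_of_nonneg_left e2 ha.le
          have e4 : 0 ≤ a * T0 := by positivity
          nlinarith [hT0.2]
        · rw [norm_zero]; positivity
      linarith
  · obtain ⟨r, hr, hl'⟩ := s4 l hl
    refine ⟨N * r, Nat.mul_le_mul_left _ (hSM r hr).2, fun i n => ?_⟩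
    have h1 : ¬ n + N * r < N * T0 := by
      have := Nat.mul_le_mul_left N (hSM r hr).1
      omega
    have h2 : (n + N * r) / N = n / N + r := Nat.add_mul_div_left _ _ hN
    have h3 : (n + N * r) % N = n % N := Nat.add_mul_mod_self_left _ _ _
    have hτ' : |((N * r : ℕ) : ℝ) * l i - N * W r i| ≤ τ := by
      have e1 := hl' i
      rw [le_div_iff₀ (by positivity)] at e1
      have e2 : ((N * r : ℕ) : ℝ) * l i - N * W r i = (r * l i - W r i) * N := by
        push_cast; ring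
      rw [e2, abs_mul, abs_of_pos (show (0 : ℝ) < N by positivity)]
      exact e1
    rw [hx]
    simp only [z, if_neg h1, h2, h3]
    rcases Nat.lt_or_ge n N with hn | hn
    · rw [Nat.div_eq_of_lt hn, Nat.mod_eq_of_lt hn, zero_add, if_pos hr, ← mul_assoc,
        ← RCLike.ofReal_mul, ← Real.exp_add, ← sub_eq_add_neg]
      have e1 : ∀ (w : ℝ) (v : 𝕜), (w : 𝕜) * v - v = ((w - 1 : ℝ) : 𝕜) * v := by
        intro w v; push_cast; ring
      rw [e1, norm_mul, RCLike.norm_ofReal]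
      have e2 := Real.abs_exp_sub_one_le (hτ'.trans hτ1)
      have e3 := mul_le_mul e2 (hA i n) (norm_nonneg _) (by positivity)
      have e4 := mul_le_mul_of_nonneg_right hτ' hA0
      nlinarith
    · rw [hu i n hn, sub_zero]
      split_ifs with h4
      · rw [← mul_assoc, ← RCLike.ofReal_mul, ← Real.exp_add, norm_mul, RCLike.norm_ofReal, abs_of_pos (Real.exp_pos _)]
        refine (mul_le_mul_of_nonneg_left (hA _ _) (Real.exp_pos _).le).trans ?_
        refine exp_small hA0 (by positivity) ?_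
        have e0 : 1 ≤ n / N := (Nat.le_div_iff_mul_le hN).2 (by omega)
        have e1 := s3 r hr _ h4 (by omega) i
        have e2 := (abs_le.1 hτ').2
        have e3 : (N : ℝ) * (W r i + L / N) ≤ N * W (n / N + r) i :=
          mul_le_mul_of_nonneg_left e1 (by positivity)
        have e4 : (N : ℝ) * (W r i + L / N) = N * W r i + L := by field_simp
        linarith
      · rw [mul_zero, norm_zero]; positivity

theorem common {a Λ : ℝ} (ha : 0 < a) (hΛ : 0 ≤ Λ) {K : Set (Fin 2 → ℝ)} (hK : Tour K a)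
    (hK' : ∀ l ∈ K, ∀ i, l i ≤ Λ) : ∃ x : E 𝕜, ∀ l ∈ K, ∀ u : E 𝕜, ∀ η : ℝ, 0 < η →
      ∃ k : ℕ, ∀ i n, ‖((Real.exp ((k : ℝ) * l i) : ℝ) : 𝕜) * x i (n + k) - u i n‖ ≤ η := by
  let tg : (Σ N : ℕ, (Fin 2 → Fin N → ℕ)) → Fin 2 → ℕ → 𝕜 := fun p i n =>
    if hn : n < p.1 then TopologicalSpace.denseSeq 𝕜 (p.2 i ⟨n, hn⟩) else 0
  have hd := dense_iInter_of_isOpen (ι := (Σ N : ℕ, (Fin 2 → Fin N → ℕ)) × ℕ)
    (f := fun p => U K (tg p.1) (1 / ((p.2 : ℝ) + 1))) ?_ ?_
  · obtain ⟨x, hx⟩ := hd.nonempty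
    rw [Set.mem_iInter] at hx
    refine ⟨x, fun l hl u η hη => ?_⟩
    have e1 : ∀ i, ∀ᶠ n in atTop, ‖u i n‖ < η / 2 := fun i =>
      (tends u i).norm.eventually_lt_const (by simp; linarith)
    obtain ⟨N, hN⟩ := eventually_atTop.1 (eventually_all.2 e1)
    have e2 : ∀ (i : Fin 2) (n : Fin N), ∃ m : ℕ,
        dist (u i n) (TopologicalSpace.denseSeq 𝕜 m) < η / 2 := fun i n =>
      Metric.denseRange_iff.1 (TopologicalSpace.denseRange_denseSeq 𝕜) _ _ (by linarith)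
    choose g hg using e2
    obtain ⟨m, hm'⟩ := exists_nat_one_div_lt (show 0 < η / 2 by linarith)
    obtain ⟨M, η', hη', hU⟩ := hx (⟨N, g⟩, m)
    obtain ⟨k, -, hk⟩ := hU _ hl
    have e3 : ∀ i n, ‖tg ⟨N, g⟩ i n - u i n‖ < η / 2 := by
      intro i n
      simp only [tg]
      split_ifs with hn
      · have := hg i ⟨n, hn⟩
        rwa [dist_comm, dist_eq_norm] at this
      · rw [zero_sub, norm_neg]
        exact hN n (not_lt.1 hn) i
    refine ⟨k, fun i n => ?_⟩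
    have f1 := hk i n
    have f2 := e3 i n
    have f3 := norm_sub_le_norm_sub_add_norm_sub
      (((Real.exp ((k : ℝ) * l i) : ℝ) : 𝕜) * x i (n + k)) (tg ⟨N, g⟩ i n) (u i n)
    simp only at hη' f1
    linarith
  · intro p
    exact U_open hΛ hK' _ _
  · intro p
    refine U_dense ha hK _ (p.1.1 + 1) (by omega) (fun i n hn => ?_) (by positivity)
    simp only [tg]
    rw [dif_neg (by omega)]

/-- a curve with modulus of continuity of order `h log (1/h)` can be toured -/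
theorem tour_of {a : ℝ} (ha : 0 < a) (γ : ℝ → Fin 2 → ℝ) (h0 : ∀ t, 0 ≤ t → ∀ i, a ≤ γ t i)
    (hγ : ∀ (m : ℕ) s t i, |γ s i - γ t i| ≤ (m + 1) * |s - t| + (1 / 2) ^ m) :
    Tour (γ '' Set.Icc 0 1) a := by
  intro L τ hL hτ T0
  obtain ⟨G, hG⟩ := exists_nat_ge ((L + τ) / a)
  rw [div_le_iff₀ ha] at hG
  have hG0 : 0 < G := by
    rcases Nat.eq_zero_or_pos G with rfl | h
    · simp at hG; linarith
    · exact h
  have hGr : (0 : ℝ) < G := by exact_mod_cast hG0
  obtain ⟨κ, hκ⟩ : ∃ κ : ℝ, κ = τ / (4 * G) := ⟨_, rfl⟩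
  have hκ0 : 0 < κ := by rw [hκ]; positivity
  obtain ⟨c, hc⟩ := exists_pow_lt_of_lt_one hκ0 (show (1 / 2 : ℝ) < 1 by norm_num)
  let f : ℕ → ℝ := fun k => κ / (2 ^ Nat.log 2 k * ((Nat.log 2 k + c : ℕ) + 1))
  have hf0 : ∀ k, 0 < f k := fun k => by simp only [f]; positivity
  have hns : ¬ Summable f := by
    rw [← summable_condensed_iff_of_nonneg (fun k => (hf0 k).le)]
    · intro h
      have h1 := h.mul_left κ⁻¹
      refine Real.not_summable_natCast_inv ((summable_nat_add_iff (c + 1)).1 ?_)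
      refine h1.congr fun k => ?_
      simp only [f, Nat.log_pow (show 1 < 2 by norm_num)]
      push_cast
      field_simp
      ring
    · intro m n _ hmn
      have h1 : Nat.log 2 m ≤ Nat.log 2 n := Nat.log_mono_right hmn
      simp only [f]
      gcongr
      norm_num
  have key : ∀ k, 0 < k → ∀ s t, |s - t| ≤ f k → ∀ i, G * k * |γ s i - γ t i| ≤ τ := by
    intro k hk s t hst i
    have h1 := hγ (Nat.log 2 k + c) s t i
    have h2 : (k : ℝ) ≤ 2 * 2 ^ Nat.log 2 k := by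
      have := Nat.lt_pow_succ_log_self (show 1 < 2 by norm_num) k
      rw [← pow_succ']
      exact_mod_cast this.le
    simp only [f] at hst
    rw [pow_add, one_div, inv_pow] at h1
    rw [one_div] at hc
    generalize Nat.log 2 k = p at *
    have hp : (0 : ℝ) < 2 ^ p := by positivity
    rw [le_div_iff₀ (by positivity)] at hst
    have h3 : 2 ^ p * |γ s i - γ t i| ≤ 2 * κ := by
      have := mul_le_mul_of_nonneg_left h1 hp.le
      rw [mul_add, ← mul_assoc (2 ^ p) (2 ^ p)⁻¹, mul_inv_cancel₀ hp.ne'] at this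
      linarith
    have h4 : τ = 4 * G * κ := by rw [hκ]; field_simp
    have h5 := mul_le_mul_of_nonneg_right h2 (abs_nonneg (γ s i - γ t i))
    rw [h4]
    nlinarith
  let T := T0 + 1
  let s : ℕ → ℝ := fun k => ∑ j ∈ Finset.range k, f (j + T)
  have hs0 : ∀ k, 0 ≤ s k := fun k => Finset.sum_nonneg fun j _ => (hf0 _).le
  have hs1 : ∀ k, s (k + 1) = s k + f (k + T) := fun k => Finset.sum_range_succ _ _
  have hs : Tendsto s atTop atTop :=
    (not_summable_iff_tendsto_nat_atTop_of_nonneg fun k => (hf0 _).le).1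
      fun h => hns ((summable_nat_add_iff T).1 h)
  obtain ⟨K, hK⟩ := (hs.eventually_gt_atTop 1).exists
  have ediv : ∀ k, G * (k + T) / G - T = k := fun k => by
    rw [Nat.mul_div_cancel_left _ hG0]; omega
  have step : ∀ k i, (G * (k + T) : ℕ) * γ (s k) i + L ≤
      (G * (k + 1 + T) : ℕ) * γ (s (k + 1)) i := by
    intro k i
    have h1 := key (k + T) (by omega) (s k) (s (k + 1))
      (by rw [hs1, abs_sub_comm, add_sub_cancel_left, abs_of_pos (hf0 _)]) i
    have h2 := h0 _ (hs0 (k + 1)) i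
    have h3 := mul_le_mul_of_nonneg_left (le_abs_self (γ (s k) i - γ (s (k + 1)) i))
      (show (0 : ℝ) ≤ G * (k + T : ℕ) by positivity)
    have h4 := mul_le_mul_of_nonneg_left h2 hGr.le
    push_cast at *
    nlinarith
  refine ⟨G * (K + T), {r | ∃ k ≤ K, r = G * (k + T)}, fun r => r • γ (s (r / G - T)),
    ?_, ?_, ?_, ?_⟩
  · rintro _ ⟨k, hk, rfl⟩
    exact ⟨le_trans (by omega) (Nat.le_mul_of_pos_left _ hG0), Nat.mul_le_mul_left _ (by omega)⟩
  · rintro _ ⟨k, hk, rfl⟩ i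
    beta_reduce
    rw [Pi.smul_apply, nsmul_eq_mul, mul_comm]
    exact mul_le_mul_of_nonneg_left (h0 _ (hs0 _) i) (by positivity)
  · rintro _ ⟨k, -, rfl⟩ _ ⟨k', -, rfl⟩ h i
    have hkk : k + 1 ≤ k' := by
      have := Nat.lt_of_mul_lt_mul_left h
      omega
    simp only [ediv, Pi.smul_apply, nsmul_eq_mul]
    clear h
    induction k', hkk using Nat.le_induction with
    | base => exact step k i
    | succ n _ ih => linarith [step n i]
  · rintro _ ⟨t, ht, rfl⟩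
    have hex : ∃ k, t < s (k + 1) := ⟨K, by rw [hs1]; linarith [ht.2, hf0 (K + T)]⟩
    classical
    have h1 := Nat.find_spec hex
    have h2 : s (Nat.find hex) ≤ t := by
      rcases h : Nat.find hex with _ | n
      · simpa [s] using ht.1
      · exact not_lt.1 (Nat.find_min hex (by omega))
    have h3 : Nat.find hex ≤ K := Nat.find_min' hex (by rw [hs1]; linarith [ht.2, hf0 (K + T)])
    generalize Nat.find hex = k at *
    refine ⟨_, ⟨k, h3, rfl⟩, fun i => ?_⟩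
    simp only [ediv, Pi.smul_apply, nsmul_eq_mul]
    have := key (k + T) (by omega) t (s k) (by rw [hs1] at h1; rw [abs_of_nonneg] <;> linarith) i
    rw [← mul_sub, abs_mul, abs_of_nonneg (by positivity)]
    push_cast at *
    exact this

noncomputable def tk (t : ℝ) : ℝ :=
  ∑' n : ℕ, (1 / 2 : ℝ) ^ n * Metric.infDist (2 ^ n * t) (Set.range ((↑) : ℤ → ℝ))

lemma inf_le (x : ℝ) : Metric.infDist x (Set.range ((↑) : ℤ → ℝ)) ≤ 1 / 2 :=
  (Metric.infDist_le_dist_of_mem (Set.mem_range_self (round x))).trans (abs_sub_round x)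

lemma tk_summ (t : ℝ) : Summable fun n : ℕ =>
    (1 / 2 : ℝ) ^ n * Metric.infDist (2 ^ n * t) (Set.range ((↑) : ℤ → ℝ)) :=
  Summable.of_nonneg_of_le (fun _ => mul_nonneg (by positivity) Metric.infDist_nonneg)
    (fun _ => mul_le_mul_of_nonneg_left (inf_le _) (by positivity))
    (summable_geometric_two.mul_right _)

lemma tk_nonneg (t : ℝ) : 0 ≤ tk t :=
  tsum_nonneg fun _ => mul_nonneg (by positivity) Metric.infDist_nonneg

lemma tk_le (t : ℝ) : tk t ≤ 1 := by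
  have := (tk_summ t).tsum_le_tsum
    (fun _ => mul_le_mul_of_nonneg_left (inf_le _) (by positivity))
    (summable_geometric_two.mul_right (1 / 2))
  rw [tsum_mul_right, tsum_geometric_two] at this
  unfold tk; linarith

lemma tk_rec (t : ℝ) :
    tk t = Metric.infDist t (Set.range ((↑) : ℤ → ℝ)) + 1 / 2 * tk (2 * t) := by
  unfold tk
  rw [(tk_summ t).tsum_eq_zero_add, ← tsum_mul_left]
  congr 1
  · simp
  · refine tsum_congr fun n => ?_
    rw [pow_succ, pow_succ, mul_assoc (2 ^ n : ℝ)]; ring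

lemma tk_mod (m : ℕ) : ∀ s t, |tk s - tk t| ≤ m * |s - t| + (1 / 2) ^ m := by
  induction m with
  | zero =>
    intro s t
    simp only [Nat.cast_zero, zero_mul, pow_zero, zero_add, abs_le]
    constructor <;> linarith [tk_le s, tk_le t, tk_nonneg s, tk_nonneg t]
  | succ m ih =>
    intro s t
    have h1 := ih (2 * s) (2 * t)
    have h2 := (Metric.lipschitz_infDist_pt (Set.range ((↑) : ℤ → ℝ))).dist_le_mul s t
    rw [← mul_sub, abs_mul, abs_two] at h1
    simp only [Real.dist_eq, NNReal.coe_one, one_mul] at h2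
    rw [tk_rec s, tk_rec t, pow_succ]
    push_cast
    rw [abs_le] at *
    constructor <;> linarith [h1.1, h1.2, h2.1, h2.2]

theorem main {a b : ℝ} (ha : 0 < a) (hb : 0 < b) : ∃ x : E 𝕜, ∀ t ∈ Set.Icc (0 : ℝ) 1,
    ∀ u : E 𝕜, ∀ η : ℝ, 0 < η → ∃ k : ℕ, ∀ i n,
      ‖((Real.exp ((k : ℝ) * ![a + t, b + tk t] i) : ℝ) : 𝕜) * x i (n + k) - u i n‖ ≤ η := by
  have hT := tour_of (lt_min ha hb) (fun t => ![a + t, b + tk t]) (fun t ht i => by
    fin_cases i
    · simp; left; linarith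
    · simp; right; linarith [tk_nonneg t]) (fun m s t i => by
    have h1 := tk_mod m s t
    have h2 := abs_nonneg (s - t)
    have h3 : (0 : ℝ) ≤ m * |s - t| := by positivity
    have h4 : (0 : ℝ) ≤ (1 / 2) ^ m := by positivity
    fin_cases i
    · simp only [Fin.zero_eta, Matrix.cons_val_zero, add_sub_add_left_eq_sub]; linarith
    · simp only [Fin.mk_one, Matrix.cons_val_one, Matrix.cons_val_zero, add_sub_add_left_eq_sub]
      linarith)
  obtain ⟨x, hx⟩ := common (𝕜 := 𝕜) (Λ := a + b + 1) (lt_min ha hb) (by positivity) hT (by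
    rintro _ ⟨t, ht, rfl⟩ i
    fin_cases i
    · simp; linarith [ht.2]
    · simp; linarith [tk_le t])
  exact ⟨x, fun t ht => hx _ ⟨t, ht, rfl⟩⟩

end Pool.Agent.H.MP_c0f49b_an
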